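import Mathlib
import Pool.Agent.H.MP_c35292_co.B

set_option autoImplicit false

namespace Pool.Agent.Results.MP_c35292_co.Yes

open Equiv Real Pool.Agent.H.MP_c35292_co
open scoped goldenRatio

abbrev E (n : ℕ) := EuclideanSpace ℝ (Fin n)

/-- a soluble group of isometries of the space preserves `Y` and is transitive on it -/
def Soluble {n : ℕ} (Y : Set (E n)) : Prop :=
  ∃ G : Subgroup (E n ≃ᵢ E n), Group.IsSolvable G ∧ (∀ g ∈ G, g '' Y = Y) ∧
    ∀ x ∈ Y, ∀ y ∈ Y, ∃ g ∈ G, g x = y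

def Subsoluble {d : ℕ} (X : Set (E d)) : Prop :=
  ∃ (n : ℕ) (Y : Set (E n)) (f : E d → E n), Y.Finite ∧ Soluble Y ∧ Isometry f ∧ f '' X ⊆ Y

/-- all even permutations and sign changes of the listed vectors -/
def Pts {k : ℕ} (b : Fin k → Fin 4 → ℝ) : Set (E 4) :=
  {x | ∃ r, ∃ σ : Perm (Fin 4), Perm.sign σ = 1 ∧ ∀ i, |x i| = b r (σ i)}

/-- Coxeter's coordinates for the 600 vertices of the 120-cell -/
def V120 : Set (E 4) := Pts ![![2, 2, 0, 0], ![√5, 1, 1, 1], ![φ, φ, φ, φ⁻¹ ^ 2],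
  ![φ ^ 2, φ⁻¹, φ⁻¹, φ⁻¹], ![φ ^ 2, φ⁻¹ ^ 2, 1, 0], ![√5, φ⁻¹, φ, 0], ![2, 1, φ, φ⁻¹]]

/-- Coxeter's coordinates for the 120 vertices of the 600-cell -/
def V600 : Set (E 4) := Pts ![![2, 0, 0, 0], ![1, 1, 1, 1], ![φ, 1, φ⁻¹, 0]]

section groups

inductive Sv {G : Type} [Group G] : Subgroup G → Prop
  | bot : Sv ⊥
  | step (H K : Subgroup G) : ⁅H, H⁆ ≤ K → Sv K → Sv H

lemma Sv.map {G G' : Type} [Group G] [Group G'] (f : G →* G') {H : Subgroup G} (h : Sv H) :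
    Sv (H.map f) := by
  induction h with
  | bot => simpa using Sv.bot
  | step H K h _ ih =>
    exact .step _ _ ((Subgroup.map_commutator H H f).ge.trans (Subgroup.map_mono h)) ih

lemma Sv.solv {G : Type} [Group G] {H : Subgroup G} (h : Sv H) : Group.IsSolvable H := by
  have : ∀ K : Subgroup G, Sv K → ∀ m, (derivedSeries H m).map H.subtype ≤ K →
      ∃ n, (derivedSeries H n).map H.subtype = ⊥ := fun K hK => by
    induction hK with
    | bot => exact fun m h => ⟨m, le_bot_iff.1 h⟩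
    | step K L h _ ih =>
      refine fun m hm => ih (m + 1) ?_
      rw [derivedSeries_succ, Subgroup.map_commutator]
      exact (Subgroup.commutator_mono hm hm).trans h
  obtain ⟨n, hn⟩ := this H h 0 (Subgroup.map_subtype_le _)
  exact ⟨n, (Subgroup.map_eq_bot_iff_of_injective _ H.subtype_injective).1 hn⟩

variable {A B : Type}

def Rp (σ : Perm (A × B)) (h : Perm A) (g : A → Perm B) : Prop := ∀ a b, σ (a, b) = (h a, g a b)

lemma Rp.mul {σ τ : Perm (A × B)} {h h' : Perm A} {g g' : A → Perm B} (p : Rp σ h g)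
    (q : Rp τ h' g') : Rp (σ * τ) (h * h') fun a => g (h' a) * g' a := fun a b => by
  simp [q a b, p (h' a)]

lemma Rp.inv {σ : Perm (A × B)} {h : Perm A} {g : A → Perm B} (p : Rp σ h g) :
    Rp σ⁻¹ h⁻¹ fun a => (g (h⁻¹ a))⁻¹ := fun a b => by
  rw [Perm.inv_eq_iff_eq, p]; simp

def Wr (H : Subgroup (Perm A)) (K : Subgroup (Perm B)) : Subgroup (Perm (A × B)) where
  carrier := {σ | ∃ h ∈ H, ∃ g : A → Perm B, (∀ a, g a ∈ K) ∧ Rp σ h g}
  one_mem' := ⟨1, one_mem _, 1, fun _ => one_mem _, fun _ _ => rfl⟩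
  mul_mem' := fun ⟨_, h, _, g, p⟩ ⟨_, h', _, g', q⟩ =>
    ⟨_, mul_mem h h', _, fun _ => mul_mem (g _) (g' _), p.mul q⟩
  inv_mem' := fun ⟨_, h, _, g, p⟩ => ⟨_, inv_mem h, _, fun _ => inv_mem (g _), p.inv⟩

lemma Sv.wr {H : Subgroup (Perm A)} {K : Subgroup (Perm B)} (h : Sv H) (k : Sv K) :
    Sv (Wr H K) := by
  induction h with
  | bot =>
    induction k with
    | bot =>
      convert Sv.bot
      refine le_bot_iff.1 ?_
      rintro σ ⟨_, rfl, g, hg, p⟩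
      refine Equiv.ext fun ⟨a, b⟩ => ?_
      rw [p, show g a = 1 from hg a]; rfl
    | step K L h _ ih =>
      refine .step _ _ (Subgroup.commutator_le.2 ?_) ih
      rintro σ ⟨_, rfl, g, hg, p⟩ τ ⟨_, rfl, g', hg', q⟩
      refine ⟨_, ?_, _, fun a => ?_, ((p.mul q).mul p.inv).mul q.inv⟩
      · simp
      · exact h (Subgroup.commutator_mem_commutator (hg a) (hg' a))
  | step H L h _ ih =>
    refine .step _ _ (Subgroup.commutator_le.2 ?_) ih
    rintro σ ⟨_, h1, g, hg, p⟩ τ ⟨_, h2, g', hg', q⟩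
    exact ⟨_, h (Subgroup.commutator_mem_commutator h1 h2), _, fun a =>
      mul_mem (mul_mem (mul_mem (hg _) (hg' _)) (inv_mem (hg _))) (inv_mem (hg' _)),
      ((p.mul q).mul p.inv).mul q.inv⟩

def sub {G : Type} [Group G] (p : G → Prop) (h : p 1 ∧ ∀ a, p a → ∀ b, p b → p (a * b⁻¹)) :
    Subgroup G := Subgroup.ofDiv {a | p a} ⟨1, h.1⟩ h.2

lemma top_sv (k : ℕ) (h1 : ∀ a : Perm (Fin k), Perm.sign a = 1 → a * a = 1 → ∀ b,
      Perm.sign b = 1 → b * b = 1 → a * b = b * a)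
      (h2 : ∀ a : Perm (Fin k), Perm.sign a = 1 → ∀ b, Perm.sign b = 1 →
      (a * b * a⁻¹ * b⁻¹) ^ 2 = 1) : Sv (⊤ : Subgroup (Perm (Fin k))) := by
  refine .step _ (alternatingGroup _) (Subgroup.commutator_le.2 fun a _ b _ => ?_) (.step _
    (sub (fun a => Perm.sign a = 1 ∧ a * a = 1) ⟨by simp, fun a ha b hb => ⟨by simp [ha.1, hb.1], ?_⟩⟩)
    (Subgroup.commutator_le.2 fun a ha b hb => ⟨?_, sq (_ : Perm _) ▸ h2 a ha b hb⟩) (.step _ ⊥
    (Subgroup.commutator_le.2 fun a ha b hb =>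
      commutatorElement_eq_one_iff_mul_comm.2 (h1 a ha.1 ha.2 b hb.1 hb.2)) .bot))
  · simp [commutatorElement_def, mul_comm, mul_left_comm]
  · rw [inv_eq_of_mul_eq_one_right hb.2, mul_assoc, ← mul_assoc b, ← h1 a ha.1 ha.2 b hb.1 hb.2,
      mul_assoc, hb.2, mul_one, ha.2]
  · simp [commutatorElement_def, mul_comm, mul_left_comm]

/-- the affine group of the field with five elements -/
def AG : Subgroup (Perm (Fin 5)) :=
  sub (fun a => ∀ x, a x = a 0 + (a 1 - a 0) * x) (by decide +kernel)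

lemma AG_sv : Sv AG := by
  have h : (∀ a : Perm (Fin 5), (∀ x, a x = a 0 + (a 1 - a 0) * x) → ∀ b : Perm (Fin 5),
      (∀ x, b x = b 0 + (b 1 - b 0) * x) → ∀ x, (a * b * a⁻¹ * b⁻¹) x = (a * b * a⁻¹ * b⁻¹) 0 + x) ∧
      ∀ a : Perm (Fin 5), (∀ x, a x = a 0 + x) → ∀ b : Perm (Fin 5), (∀ x, b x = b 0 + x) →
      a * b * a⁻¹ * b⁻¹ = 1 := by decide +kernel
  exact .step _ (sub (fun a => ∀ x, a x = a 0 + x) (by decide +kernel))
    (Subgroup.commutator_le.2 h.1) (.step _ ⊥ (Subgroup.commutator_le.2 h.2) .bot)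

def Rel (H : Subgroup (Perm A)) (a b : A → ℝ) : Prop := ∃ σ ∈ H, ∀ i, a i = b (σ i)

lemma Rel.wr {H : Subgroup (Perm A)} {K : Subgroup (Perm B)} {a b : A × B → ℝ} {h : Perm A}
    (hh : h ∈ H) (p : ∀ j, Rel K (fun i => a (j, i)) fun i => b (h j, i)) : Rel (Wr H K) a b := by
  choose g hg p using p
  exact ⟨Equiv.prodShear h g, ⟨h, hh, g, hg, fun _ _ => rfl⟩, fun ⟨j, i⟩ => p j i⟩

lemma ms_perm {C : Type} [Fintype A] {a b : A → C}
    (h : Finset.univ.val.map a = Finset.univ.val.map b) : ∃ σ : Perm A, ∀ i, a i = b (σ i) := by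
  classical
  refine ⟨Equiv.ofFiberEquiv fun c => Fintype.equivOfCardEq ?_, fun i =>
    (Equiv.ofFiberEquiv_map _ i).symm⟩
  have := congrArg (Multiset.count c) h
  rw [Multiset.count_map, Multiset.count_map] at this
  simp only [Fintype.card_subtype, eq_comm (b := c)]
  exact this

def Iso (F : E 4 → A → ℝ) [Fintype A] (c : ℝ) : Prop :=
  ∀ x y, ∑ w, (F x w - F y w) ^ 2 = c * dist x y ^ 2

lemma main [Fintype A] {H : Subgroup (Perm A)} (hH : Sv H) {F : E 4 → A → ℝ} {c : ℝ} (hc : 0 < c)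
    (hF : Iso F c) {X : Set (E 4)} (x0 : E 4) (hX : ∀ x ∈ X, Rel H (F x) (F x0)) :
    Subsoluble X := by
  classical
  let e := Fintype.equivFin A
  let f : E 4 → E (Fintype.card A) := fun x => WithLp.toLp 2 fun k => F x (e.symm k) / √c
  let p : Perm A →* (E (Fintype.card A) ≃ᵢ E (Fintype.card A)) :=
    { toFun := fun σ =>
        (LinearIsometryEquiv.piLpCongrLeft 2 ℝ ℝ ((e.symm.trans σ).trans e)).toIsometryEquiv
      map_one' := by ext; simp [Perm.one_def]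
      map_mul' := fun _ _ => by ext; simp [Perm.mul_def] }
  refine ⟨_, (fun σ => p σ (f x0)) '' H, f, Set.toFinite _, ⟨H.map p, (hH.map p).solv, ?_, ?_⟩,
    Isometry.of_dist_eq fun x y => ?_, ?_⟩
  · rintro _ ⟨σ, h, rfl⟩
    refine Set.Subset.antisymm ?_ ?_
    · rintro _ ⟨_, ⟨τ, h', rfl⟩, rfl⟩
      exact ⟨σ * τ, mul_mem h h', by simp⟩
    · rintro _ ⟨τ, h', rfl⟩
      exact ⟨_, ⟨σ⁻¹ * τ, mul_mem (inv_mem h) h', rfl⟩, by
        rw [← IsometryEquiv.mul_apply, ← map_mul]; simp⟩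
  · rintro _ ⟨σ, h, rfl⟩ _ ⟨τ, h', rfl⟩
    exact ⟨_, ⟨τ * σ⁻¹, mul_mem h' (inv_mem h), rfl⟩, by
      rw [← IsometryEquiv.mul_apply, ← map_mul]; simp⟩
  · rw [← sq_eq_sq₀ dist_nonneg dist_nonneg, EuclideanSpace.dist_sq_eq,
      ← mul_right_inj' hc.ne', ← hF, Finset.mul_sum, ← e.symm.sum_comp]
    refine Finset.sum_congr rfl fun k _ => ?_
    simp only [f, Real.dist_eq, sq_abs, ← sub_div, div_pow, sq_sqrt hc.le]
    field_simp
  · rintro _ ⟨x, hx, rfl⟩
    obtain ⟨σ, h, hσ⟩ := hX x hx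
    exact ⟨σ⁻¹, inv_mem h, by ext; simp [p, f, hσ, Perm.inv_def]⟩

end groups

noncomputable def ev (v : K) : ℝ := v.1 + v.2 * φ

noncomputable def A0 (x : E 4) (w : Fin 3 × Fin 4 × Fin 2) : ℝ :=
  (if w.2.2 = 0 then 1 else -1) * fr (x 0) (x 1) (x 2) (x 3) w.1 w.2.1

noncomputable def T (e : ℤ) (x : E 4) : E 4 :=
  !₂[((φ - 1) * x 0 + x 1 + φ * x 3) / 2, ((φ - 1) * x 1 - x 0 + e * (φ * x 2)) / 2,
    ((φ - 1) * x 2 + e * x 3 - e * (φ * x 1)) / 2, ((φ - 1) * x 3 - e * x 2 - φ * x 0) / 2]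

def up {A : Type} (S : E 4 → E 4) (F : E 4 → A → ℝ) (x : E 4) (w : Fin 5 × A) : ℝ :=
  F (S^[w.1] x) w.2

lemma iso0 : Iso A0 24 := fun x y => by
  simp [A0, fr, Fintype.sum_prod_type, Fin.sum_univ_succ, EuclideanSpace.dist_sq_eq, Real.dist_eq]
  ring

lemma isoT {e : ℤ} (he : e = 1 ∨ e = -1) : Isometry (T e) := Isometry.of_dist_eq fun x y => by
  rw [← sq_eq_sq₀ dist_nonneg dist_nonneg, EuclideanSpace.dist_sq_eq, EuclideanSpace.dist_sq_eq]
  simp only [T, Fin.sum_univ_four, Real.dist_eq, sq_abs, Matrix.cons_val]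
  rcases he with rfl | rfl <;> push_cast <;> linear_combination ((x 0 - y 0) ^ 2 + (x 1 - y 1) ^ 2 +
    (x 2 - y 2) ^ 2 + (x 3 - y 3) ^ 2) / 2 * goldenRatio_sq

lemma iso_up {A : Type} [Fintype A] {S : E 4 → E 4} (hS : Isometry S) {F : E 4 → A → ℝ} {c : ℝ}
    (h : Iso F c) : Iso (up S F) (5 * c) := fun x y => by
  have : ∀ n, dist (S^[n] x) (S^[n] y) = dist x y := fun n => by
    induction n with
    | zero => rfl
    | succ n ih => rw [Function.iterate_succ_apply', Function.iterate_succ_apply', hS.dist_eq, ih]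
  simp only [up, Fintype.sum_prod_type, h _ _, this]
  simp [mul_assoc]

noncomputable def P (n : ℕ) : E 4 := WithLp.toLp 2 fun k => ev (X n k)

lemma ev_add (a b : K) : ev (a + b) = ev a + ev b := by simp [ev]; ring

lemma ev_neg (a : K) : ev (-a) = -ev a := by simp [ev]; ring

lemma fr_ev (a b c d : K) (f : Fin 3) (i : Fin 4) :
    fr (ev a) (ev b) (ev c) (ev d) f i = ev (fr a b c d f i) := by
  fin_cases f <;> fin_cases i <;> simp [fr, ev] <;> ring

lemma rel0 : ∀ n < 1920, ∀ m < 1920, t2 n = t2 m → Rel (Wr ⊤ (Wr ⊤ ⊤)) (A0 (P n)) (A0 (P m)) := by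
  intro n hn m hm h
  have h1 := al_spec c3 hn
  have h2 := al_spec c3 hm
  rw [beq_iff_eq] at h1 h2
  rw [h, ← h2] at h1
  obtain ⟨σ, hσ⟩ := ms_perm h1
  refine Rel.wr (Subgroup.mem_top σ) fun f => ?_
  obtain ⟨τ, hτ⟩ := ms_perm (hσ f)
  refine Rel.wr (Subgroup.mem_top τ) fun i => ?_
  have : ∀ v w : K, ab v = ab w → v = w ∨ v = -w := fun v w h => by
    unfold ab at h
    split_ifs at h
    exacts [.inl h, .inr h, .inr (neg_eq_iff_eq_neg.1 h), .inl (neg_injective h)]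
  simp only [A0, P, fr_ev]
  rcases this _ _ (hτ i) with h | h <;> rw [h]
  · exact ⟨1, trivial, fun _ => rfl⟩
  · exact ⟨swap 0 1, trivial, fun s => by fin_cases s <;> simp [ev_neg]⟩

lemma step {e : ℤ} {p n : ℕ} (h : mv e p n = true) :
    nx p n < 1920 ∧ T e (P n) = P (nx p n) := by
  simp only [mv, stp, Bool.and_eq_true, beq_iff_eq, decide_eq_true_eq] at h
  obtain ⟨h0, ⟨⟨⟨⟨⟨⟨h1, h2⟩, h3⟩, h4⟩, h5⟩, h6⟩, h7⟩, h8⟩ := h
  refine ⟨h0, ?_⟩
  replace h1 := congrArg (Int.cast : ℤ → ℝ) h1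
  replace h2 := congrArg (Int.cast : ℤ → ℝ) h2
  replace h3 := congrArg (Int.cast : ℤ → ℝ) h3
  replace h4 := congrArg (Int.cast : ℤ → ℝ) h4
  replace h5 := congrArg (Int.cast : ℤ → ℝ) h5
  replace h6 := congrArg (Int.cast : ℤ → ℝ) h6
  replace h7 := congrArg (Int.cast : ℤ → ℝ) h7
  replace h8 := congrArg (Int.cast : ℤ → ℝ) h8
  push_cast at h1 h2 h3 h4 h5 h6 h7 h8
  have g := goldenRatio_sq
  have k : ∀ y : E 4, y = !₂[y 0, y 1, y 2, y 3] := fun y => by ext i; fin_cases i <;> rfl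
  rw [k (P (nx p n))]
  simp only [T, P, ev]
  congr 2
  · linear_combination h1 / 2 + φ / 2 * h2 + ((X n 0).2 + (X n 3).2) / 2 * g
  congr 1
  · linear_combination h3 / 2 + φ / 2 * h4 + ((X n 1).2 + e * (X n 2).2) / 2 * g
  congr 1
  · linear_combination h5 / 2 + φ / 2 * h6 + ((X n 2).2 - e * (X n 1).2) / 2 * g
  congr 1
  · linear_combination h7 / 2 + φ / 2 * h8 + ((X n 3).2 - (X n 0).2) / 2 * g

lemma lev {A : Type} {H : Subgroup (Perm A)} {F : E 4 → A → ℝ} {t : ℕ → ℕ} {e : ℤ} {p : ℕ}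
    (hm : al (mv e p) = true) (hc : ∀ n < 1920, col p t n ∈ C)
    (h : ∀ n < 1920, ∀ m < 1920, t n = t m → Rel H (F (P n)) (F (P m))) :
    ∀ n < 1920, ∀ m < 1920, (col p t n).sum = (col p t m).sum →
      Rel (Wr AG H) (up (T e) F (P n)) (up (T e) F (P m)) := by
  have it : ∀ n < 1920, ∀ i, (nx p)^[i] n < 1920 ∧ (T e)^[i] (P n) = P ((nx p)^[i] n) :=
    fun n hn i => by
      induction i with
      | zero => exact ⟨hn, rfl⟩
      | succ i ih =>
        rw [Function.iterate_succ_apply', Function.iterate_succ_apply', ih.2]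
        exact step (al_spec hm ih.1)
  have cg : ∀ n (i : Fin 5), (col p t n).getD i 0 = t ((nx p)^[i] n) := fun n i => by
    fin_cases i <;> rfl
  intro n hn m hm hs
  obtain ⟨a, b, ha, hb⟩ := c6 _ (hc n hn) _ (hc m hm) hs
  obtain ⟨σ, h1, h2⟩ := (by decide +kernel : ∀ m t : Fin 5, m ≠ 0 → ∃ h : Perm (Fin 5),
    (∀ x, h x = h 0 + (h 1 - h 0) * x) ∧ ∀ i, h i = m * i + t) a b ha
  refine Rel.wr (h := σ) h1 fun i => ?_
  simp only [up, (it n hn _).2, (it m hm _).2]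
  exact h _ (it n hn _).1 _ (it m hm _).1 (by rw [← cg, ← cg, hb, h2])

lemma link {x : E 4} {r : ℕ} {σ : Perm (Fin 4)} (hσ : Perm.sign σ = 1)
    (h : ∀ i, |x i| = ev (Bz.getD r 0 (σ i))) : ∃ m < 192, x = P (192 * r + m) := by
  obtain ⟨q, hq, h1⟩ := (by decide +kernel : ∀ σ : Perm (Fin 4), Perm.sign σ = 1 →
    ∃ q < 12, ∀ k, Al.getD q id k = σ k) σ hσ
  obtain ⟨s, hs, h2⟩ := (by decide +kernel : ∀ b : Fin 4 → Bool, ∃ s < 16, ∀ k : Fin 4,
    s.testBit k = b k) fun k => decide (0 ≤ x k)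
  refine ⟨16 * q + s, by omega, ?_⟩
  ext k
  simp only [P, X, show (192 * r + (16 * q + s)) % 16 = s by omega, h1, h2,
    show (192 * r + (16 * q + s)) / 192 = r by omega,
    show (192 * r + (16 * q + s)) / 16 % 12 = q by omega]
  have := h k
  generalize Bz.getD r 0 (σ k) = v at this
  by_cases c : 0 ≤ x k
  · simp [c, ← this, abs_of_nonneg c]
  · simp [c, ev_neg, ← this, abs_of_neg (not_le.1 c)]

lemma fin {X : Set (E 4)} (n0 : ℕ) (h0 : n0 < 1920)
    (h : ∀ x ∈ X, ∃ n < 1920, x = P n ∧ (n < 1344 ↔ n0 < 1344)) : Subsoluble X := by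
  have c := fun n (hn : n < 1920) => by
    simpa only [Bool.and_eq_true, List.elem_iff, beq_iff_eq] using al_spec c5 hn
  refine main (AG_sv.wr (AG_sv.wr ((top_sv 3 (by decide +kernel) (by decide +kernel)).wr
    ((top_sv 4 (by decide +kernel) (by decide +kernel)).wr
    (top_sv 2 (by decide +kernel) (by decide +kernel)))))) (by norm_num)
    (iso_up (isoT (.inr rfl)) (iso_up (isoT (.inl rfl)) iso0)) (P n0) fun x hx => ?_
  obtain ⟨n, hn, rfl, e⟩ := h x hx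
  refine lev c2 (fun n hn => (c n hn).1) (lev c1 (fun n hn => ?_) rel0) n hn n0 h0 ?_
  · simpa only [List.elem_iff] using al_spec c4 hn
  · rw [(c n hn).2, (c n0 h0).2]; simp only [e]

theorem result : Subsoluble V120 ∧ Subsoluble V600 := by
  have g := goldenRatio_sq
  have e1 : φ⁻¹ = φ - 1 := by rw [inv_goldenRatio, ← goldenRatio_add_goldenConj]; ring
  have e2 : √5 = 2 * φ - 1 := by rw [goldenRatio]; ring
  refine ⟨fin 0 (by norm_num) ?_, fin 1344 (by norm_num) ?_⟩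
  · rintro x ⟨r, σ, hσ, h⟩
    obtain ⟨m, hm, rfl⟩ := link (r := r) hσ fun i => (h i).trans (by
      generalize σ i = j
      rw [e1]
      fin_cases r <;> fin_cases j <;> simp [ev, Bz] <;> linarith)
    exact ⟨_, by omega, rfl, by omega⟩
  · rintro x ⟨r, σ, hσ, h⟩
    obtain ⟨m, hm, rfl⟩ := link (r := 7 + r) hσ fun i => (h i).trans (by
      generalize σ i = j
      rw [e1]
      fin_cases r <;> fin_cases j <;> simp [ev, Bz] <;> linarith)
    exact ⟨_, by omega, rfl, by omega⟩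

end Pool.Agent.Results.MP_c35292_co.Yes
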